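import Pool.Agent.W_448ev_h24.JkC
import Pool.Agent.W_448ev_h61.EvK1
import Pool.Agent.W_448wd_h84.WdB
import Pool.Agent.W_448al_h63.LJ

/-!
# MP_448cb3_co, G2: consumers of the evaluator for given words (helper24)

Rows of a component from its word; the first order coefficients of the six excluded words.
-/

set_option autoImplicit false

namespace Pool.Agent.GaussPoset.Win.Ev

set_option linter.unusedSectionVars false

open Finset

/-! ## rows from a word -/

section rows

variable {lo hi : ℕ → ℕ} {j a d : ℕ}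

/-- left ends from the word -/
lemma lo_word (hlo : ∀ k, k < j → lo (k + 1) = lo k ∨ lo (k + 1) = lo k + 1) (hd : a + d ≤ j)
    {w : List Wd.Ltr} (hw : Wd.word lo hi a d = w) :
    ∀ k, k ≤ d → lo (a + k) = lo a + (w.take k).countP (fun l => l.1) := by
  intro k hk
  subst hw
  rw [Wd.word_take hk]
  induction k with
  | zero => simp [Wd.word]
  | succ k ih =>
    rw [Wd.word_succ, List.countP_append, ← Nat.add_assoc, ← Nat.add_assoc, ← ih (by omega)]
    rcases hlo (a + k) (by omega) with h | h
    · simp [h]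
    · simp [h]

/-- right ends from the word -/
lemma hi_word (hhi : ∀ k, k < j → hi (k + 1) = hi k ∨ hi (k + 1) = hi k + 1) (hd : a + d ≤ j)
    {w : List Wd.Ltr} (hw : Wd.word lo hi a d = w) :
    ∀ k, k ≤ d → hi (a + k) = hi a + (w.take k).countP (fun l => l.2) := by
  intro k hk
  subst hw
  rw [Wd.word_take hk]
  induction k with
  | zero => simp [Wd.word]
  | succ k ih =>
    rw [Wd.word_succ, List.countP_append, ← Nat.add_assoc, ← Nat.add_assoc, ← ih (by omega)]
    rcases hhi (a + k) (by omega) with h | h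
    · simp [h]
    · simp [h]

/-- decidable check: the lists `los`, `his` are the rows `e, …, e + R - 1` (relative to the first
level with two elements) of the word, up to the constant `c` -/
def chkW (w : List Wd.Ltr) (e R c : ℕ) (los his : List ℕ) : Bool :=
  decide (e + R ≤ w.length + 1) &&
  (List.range R).all (fun k => Nat.beq ((w.take (e + k)).countP (fun l => l.1)) (c + los.getD k 0) &&
    Nat.beq (1 + (w.take (e + k)).countP (fun l => l.2)) (c + his.getD k 0))

/-- rows of a component with a given word, base level at least `a` -/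
lemma rows_word (hlo : ∀ k, k < j → lo (k + 1) = lo k ∨ lo (k + 1) = lo k + 1)
    (hhi : ∀ k, k < j → hi (k + 1) = hi k ∨ hi (k + 1) = hi k + 1)
    {w : List Wd.Ltr} (hd : a + w.length ≤ j) (hw : Wd.word lo hi a w.length = w)
    (h1 : hi a = lo a + 1) {e R c : ℕ} {los his : List ℕ} (hchk : chkW w e R c los his = true) :
    Rows lo hi (a + e) (lo a + c) R los his := by
  unfold chkW at hchk
  rw [Bool.and_eq_true, decide_eq_true_eq] at hchk
  obtain ⟨hR, hall⟩ := hchk
  have key : ∀ k, k < R → (w.take (e + k)).countP (fun l => l.1) = c + los.getD k 0 ∧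
      1 + (w.take (e + k)).countP (fun l => l.2) = c + his.getD k 0 := by
    intro k hk
    have h2 := List.all_eq_true.1 hall k (List.mem_range.2 hk)
    rw [Bool.and_eq_true] at h2
    exact ⟨Nat.eq_of_beq_eq_true h2.1, Nat.eq_of_beq_eq_true h2.2⟩
  constructor
  · intro k hk
    have h2 := lo_word hlo hd hw (e + k) (by omega)
    have h3 := (key k hk).1
    rw [show a + e + k = a + (e + k) by omega]
    omega
  · intro k hk
    have h2 := hi_word hhi hd hw (e + k) (by omega)
    have h3 := (key k hk).2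
    rw [show a + e + k = a + (e + k) by omega]
    omega

/-- decidable check with a trunk: rows `0, …, R - 1` of a component with one element on the levels
`< a` -/
def chkT (w : List Wd.Ltr) (a base R : ℕ) (los his : List ℕ) : Bool :=
  decide (base + R ≤ a + w.length + 1) &&
  (List.range R).all (fun k => bif Nat.ble (base + k + 1) a then
      (Nat.beq (los.getD k 0) 0 && Nat.beq (his.getD k 0) 0) else
    Nat.beq ((w.take (base + k - a)).countP (fun l => l.1)) (los.getD k 0) &&
    Nat.beq (1 + (w.take (base + k - a)).countP (fun l => l.2)) (his.getD k 0))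

/-- rows of a component in normal form (trunk `lo = hi = 0` above level `a`) with a given word -/
lemma rows_trunk (hlo : ∀ k, k < j → lo (k + 1) = lo k ∨ lo (k + 1) = lo k + 1)
    (hhi : ∀ k, k < j → hi (k + 1) = hi k ∨ hi (k + 1) = hi k + 1)
    {w : List Wd.Ltr} (hd : a + w.length ≤ j) (hw : Wd.word lo hi a w.length = w)
    (h0 : ∀ k, k < a → lo k = 0 ∧ hi k = 0) (h1 : lo a = 0) (h2 : hi a = 1) {base R : ℕ}
    {los his : List ℕ} (hchk : chkT w a base R los his = true) :
    Rows lo hi base 0 R los his := by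
  unfold chkT at hchk
  rw [Bool.and_eq_true, decide_eq_true_eq] at hchk
  obtain ⟨hR, hall⟩ := hchk
  have key : ∀ k, k < R → lo (base + k) = los.getD k 0 ∧ hi (base + k) = his.getD k 0 := by
    intro k hk
    have h3 := List.all_eq_true.1 hall k (List.mem_range.2 hk)
    cases hb : Nat.ble (base + k + 1) a with
    | true =>
      rw [hb, cond_true, Bool.and_eq_true] at h3
      have h4 := Nat.le_of_ble_eq_true hb
      have h5 := h0 (base + k) (by omega)
      exact ⟨by rw [h5.1, Nat.eq_of_beq_eq_true h3.1], by rw [h5.2, Nat.eq_of_beq_eq_true h3.2]⟩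
    | false =>
      rw [hb, cond_false, Bool.and_eq_true] at h3
      have h4 : ¬ (base + k + 1 ≤ a) := by
        intro h
        have := Nat.ble_eq_true_of_le h
        rw [hb] at this
        exact absurd this (by simp)
      have e1 := lo_word hlo hd hw (base + k - a) (by omega)
      have e2 := hi_word hhi hd hw (base + k - a) (by omega)
      rw [show a + (base + k - a) = base + k by omega] at e1 e2
      have e3 := Nat.eq_of_beq_eq_true h3.1
      have e4 := Nat.eq_of_beq_eq_true h3.2
      exact ⟨by omega, by omega⟩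
  constructor
  · intro k hk
    rw [(key k hk).1, Nat.zero_add]
  · intro k hk
    rw [(key k hk).2, Nat.zero_add]

end rows

universe u

variable {P : Type u} [Fintype P] [PartialOrder P] [DecidableEq P] {r i j : ℕ}
variable {C : Finset P} {t : P} {lo hi : ℕ → ℕ} {x : ℕ → ℕ → P} {base c0 R s : ℕ} {los his : List ℕ}

lemma Comp.lo_step' (hc : Comp P t j lo hi x) (k : ℕ) (hk : k < j) :
    lo (k + 1) = lo k ∨ lo (k + 1) = lo k + 1 := by
  have h1 := hc.lo_le k hk
  have h2 := hc.lo_ge k hk
  omega

lemma Comp.hi_step' (hc : Comp P t j lo hi x) (k : ℕ) (hk : k < j) :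
    hi (k + 1) = hi k ∨ hi (k + 1) = hi k + 1 := by
  have h1 := hc.hi_le k hk
  have h2 := hc.hi_ge k hk
  omega

/-- the first level with two elements has exactly two -/
lemma Comp.first_two (hc : Comp P t j lo hi x) {a : ℕ} (h1 : ∀ k, k < a → lo k = hi k)
    (h2 : lo a < hi a) (ha : a ≤ j) : hi a = lo a + 1 := by
  rcases Nat.eq_zero_or_pos a with rfl | h0
  · have := hc.lo0
    have := hc.hi0
    omega
  · obtain ⟨b, rfl⟩ : ∃ b, a = b + 1 := ⟨a - 1, by omega⟩
    have e1 := h1 b (by omega)
    have e2 := hc.lo_le b (by omega)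
    have e3 := hc.hi_ge b (by omega)
    omega

/-- first order coefficient of a component from the evaluator -/
theorem al_goodE (Lc : Loc P r j t lo hi x C i base c0 R s los his) {m E : ℕ} {v : ℤ}
    (hg : goodE los his R s m E v = true) (hm1 : 1 ≤ m) (hm : m ≤ 2) (hE : E < 32)
    (htop : base = 0 ∨ E ≤ s) (hbot : s + E < R) {b : ℕ} (hb : b = m + 1) :
    I2.al E b (ZS i C) = v := by
  unfold goodE at hg
  simp only [Bool.and_eq_true] at hg
  obtain ⟨⟨h1, h2⟩, h3⟩ := hg
  rw [al_eq (by omega), hb, Nat.add_sub_cancel, Lc.eval h1 h2 hm hE htop (Or.inl hbot)]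
  exact of_decide_eq_true h3

/-- number of the sites from the rows -/
lemma Loc.card_st (Lc : Loc P r j t lo hi x C i base c0 R s los his) :
    (st i C).card = his.getD s 0 + 1 - los.getD s 0 := by
  have hj := Lc.hj
  have hi' := Lc.hi'
  have hs := Lc.hs
  have h1 := Lc.hc.card_st (i := i) (S := C) (by omega) (fun y hy => Lc.mem y (by omega))
  have e1 := Lc.rows.lo_eq s hs
  have e2 := Lc.rows.hi_eq s hs
  rw [← hi'] at e1 e2
  rw [h1, e1, e2]
  omega

/-- local data from the word -/
lemma loc_word (h : GoodTo P r j) (ht : lev t = 0) (hc : Comp P t j lo hi x) (hp : Part i C)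
    (hmem : ∀ z, lev z ≤ j → (z ∈ C ↔ z ≤ t)) {a : ℕ} {w : List Wd.Ltr} (hd : a + w.length ≤ j)
    (hw : Wd.word lo hi a w.length = w) (h1 : hi a = lo a + 1) {e c : ℕ}
    (hi' : i = a + e + s) (hs : s < R) (hchk : chkW w e R c los his = true) :
    Loc P r j t lo hi x C i (a + e) (lo a + c) R s los his := by
  have hR : e + R ≤ w.length + 1 := by
    unfold chkW at hchk
    rw [Bool.and_eq_true, decide_eq_true_eq] at hchk
    exact hchk.1
  exact ⟨h, ht, hc, hp, fun z hz => hmem z (by omega),
    rows_word (Comp.lo_step' hc) (Comp.hi_step' hc) hd hw h1 hchk, hi', hs, by omega⟩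

/-- local data from the word, with trunk -/
lemma loc_trunk (h : GoodTo P r j) (ht : lev t = 0) (hc : Comp P t j lo hi x) (hp : Part i C)
    (hmem : ∀ z, lev z ≤ j → (z ∈ C ↔ z ≤ t)) {a : ℕ} {w : List Wd.Ltr} (hd : a + w.length ≤ j)
    (hw : Wd.word lo hi a w.length = w) (h0 : ∀ k, k < a → lo k = 0 ∧ hi k = 0) (h1 : lo a = 0)
    (h2 : hi a = 1) (hi' : i = base + s) (hs : s < R) (hchk : chkT w a base R los his = true) :
    Loc P r j t lo hi x C i base 0 R s los his := by
  have hR : base + R ≤ a + w.length + 1 := by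
    unfold chkT at hchk
    rw [Bool.and_eq_true, decide_eq_true_eq] at hchk
    exact hchk.1
  exact ⟨h, ht, hc, hp, fun z hz => hmem z (by omega),
    rows_trunk (Comp.lo_step' hc) (Comp.hi_step' hc) hd hw h0 h1 h2 hchk, hi', hs, by omega⟩

/-- one excluded word -/
theorem al_bad (h : GoodTo P r j) (ht : lev t = 0) (hc : Comp P t j lo hi x) (hp : Part i C)
    (hmem : ∀ z, lev z ≤ j → (z ∈ C ↔ z ≤ t)) {a : ℕ} {w : List Wd.Ltr} (hd : a + w.length ≤ j)
    (hw : Wd.word lo hi a w.length = w) (h1 : ∀ k, k < a → lo k = hi k) (h2 : lo a < hi a)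
    {e c m E : ℕ} {v : ℤ} (hchk : chkW w e R c los his = true)
    (hg : goodE los his R s m E v = true) (hi' : i = a + e + s) (hm1 : 1 ≤ m) (hm : m ≤ 2)
    (hE : E < 32) (htop : E ≤ s) (hbot : s + E < R) (hb : his.getD s 0 = los.getD s 0 + m) :
    I2.al E (st i C).card (ZS i C) = v := by
  have Lc := loc_word (s := s) h ht hc hp hmem hd hw (Comp.first_two hc h1 h2 (by omega)) hi'
    (by omega) hchk
  exact al_goodE Lc hg hm1 hm hE (Or.inr htop) hbot (by rw [Lc.card_st]; omega)

/-- THE FIELD `bad`: the six words are excluded by the first order identities at the windows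
`7`, `8`, `12`. -/
theorem bad_of_al (h : GoodTo P r j) (ht : lev t = 0) (hc : Comp P t j lo hi x)
    (hp : ∀ i, 7 ≤ i → i < j → Part i C) (hmem : ∀ z, lev z ≤ j → (z ∈ C ↔ z ≤ t))
    (hal : ∀ i E, (i = 7 ∧ E = 4) ∨ (i = 8 ∧ E = 4) ∨ (i = 12 ∧ E = 4) ∨ (i = 12 ∧ E = 5) →
      i + E ≤ j → I2.al E (st i C).card (ZS i C) = 0) :
    ∀ a w, (a, w) ∈ Wd.badWords → (∀ k, k < a → lo k = hi k) → lo a < hi a →
      a + w.length ≤ j → Wd.word lo hi a w.length ≠ w := by
  intro a w hb h1 h2 hd hw
  simp only [Wd.badWords, List.mem_cons, Prod.mk.injEq, List.not_mem_nil, or_false] at hb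
  rcases hb with ⟨rfl, rfl⟩ | ⟨rfl, rfl⟩ | ⟨rfl, rfl⟩ | ⟨rfl, rfl⟩ | ⟨rfl, rfl⟩ | ⟨rfl, rfl⟩
  · have hl : 11 ≤ j := hd
    have e1 := al_bad (i := 7) (e := 0) (c := 0) h ht hc (hp 7 (by omega) (by omega)) hmem hd hw h1 h2
      (by decide) bad7_OC_CO_CO_OC_CC_OC_OC_OC rfl (by omega) (by omega) (by omega) (by omega)
      (by omega) rfl
    rw [hal 7 4 (by omega) (by omega)] at e1
    omega
  · have hl : 11 ≤ j := hd
    have e1 := al_bad (i := 7) (e := 0) (c := 0) h ht hc (hp 7 (by omega) (by omega)) hmem hd hw h1 h2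
      (by decide) bad7_OC_CO_CO_OC_CC_OC_OC_OO rfl (by omega) (by omega) (by omega) (by omega)
      (by omega) rfl
    rw [hal 7 4 (by omega) (by omega)] at e1
    omega
  · have hl : 12 ≤ j := hd
    have e1 := al_bad (i := 8) (e := 0) (c := 0) h ht hc (hp 8 (by omega) (by omega)) hmem hd hw h1 h2
      (by decide) bad7_OC_CO_CO_OO_CC_OC_OC_OO rfl (by omega) (by omega) (by omega) (by omega)
      (by omega) rfl
    rw [hal 8 4 (by omega) (by omega)] at e1
    omega
  · have hl : 16 ≤ j := hd
    have e1 := al_bad (i := 12) (e := 4) (c := 2) h ht hc (hp 12 (by omega) (by omega)) hmem hd hw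
      h1 h2 (by decide) bad11_OC_CO_CO_OO_CC_OC_OC_CO_CC_OC_OC_OO rfl (by omega) (by omega)
      (by omega) (by omega) (by omega) rfl
    rw [hal 12 4 (by omega) (by omega)] at e1
    omega
  · have hl : 17 ≤ j := hd
    have e1 := al_bad (i := 12) (e := 3) (c := 2) h ht hc (hp 12 (by omega) (by omega)) hmem hd hw
      h1 h2 (by decide) bad11_OC_CO_CO_OO_CC_OC_OC_CO_CC_OC_OC_OC_OC rfl (by omega) (by omega)
      (by omega) (by omega) (by omega) rfl
    rw [hal 12 5 (by omega) (by omega)] at e1
    omega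
  · have hl : 17 ≤ j := hd
    have e1 := al_bad (i := 12) (e := 3) (c := 2) h ht hc (hp 12 (by omega) (by omega)) hmem hd hw
      h1 h2 (by decide) bad11_OC_CO_CO_OO_CC_OC_OC_CO_CC_OC_OC_OC_OO rfl (by omega) (by omega)
      (by omega) (by omega) (by omega) rfl
    rw [hal 12 5 (by omega) (by omega)] at e1
    omega

end Pool.Agent.GaussPoset.Win.Ev
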