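import Pool.Agent.W_448e7_h24.EsA
import Pool.Agent.W_448ev_h61.EvI3

/-!
# MP_448cb3_co, G2: second order coefficients from the evaluator (helper24)
-/

set_option autoImplicit false

namespace Pool.Agent.GaussPoset.Win.Ev

set_option linter.unusedSectionVars false

open Finset

lemma okX_mono {lo hi : List ℕ} {R s m N N' : ℕ} {X : List ℕ} (h : okX lo hi R s m N X = true)
    (hN : N' ≤ N) : okX lo hi R s m N' X = true := by
  unfold okX at h ⊢
  simp only [Bool.and_eq_true] at h ⊢
  refine ⟨h.1, ?_⟩
  rw [List.all_eq_true]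
  intro n hn
  rw [List.mem_range] at hn
  exact List.all_eq_true.1 h.2 n (List.mem_range.2 (by omega))

lemma okXs_mono {lo hi : List ℕ} {R s m N N' : ℕ} (h : okXs lo hi R s m N = true)
    (hN : N' ≤ N) : okXs lo hi R s m N' = true := by
  unfold okXs at h ⊢
  rw [List.all_eq_true] at h ⊢
  intro X hX
  have h1 := h X hX
  rw [Bool.or_eq_true] at h1 ⊢
  rcases h1 with h1 | h1
  · exact Or.inl h1
  · exact Or.inr (okX_mono h1 hN)

universe u

variable {P : Type u} [Fintype P] [PartialOrder P] [DecidableEq P] {r i j : ℕ}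
variable {C : Finset P} {t : P} {lo hi : ℕ → ℕ} {x : ℕ → ℕ → P} {base c0 R s : ℕ} {los his : List ℕ}

/-- second order coefficients of a component with three sites, three rows below the window -/
theorem Loc.be_good3 (Lc : Loc P r j t lo hi x C i base c0 (s + 4) s los his) {v5 v6 : ℤ}
    (hg : good3 los his s v5 v6 = true) (htop : base = 0 ∨ 6 ≤ s) :
    I2.be 5 3 (ZS i C) = v5 ∧ I2.be 6 3 (ZS i C) = v6 := by
  unfold good3 at hg
  simp only [Bool.and_eq_true] at hg
  obtain ⟨⟨⟨⟨h1, h2⟩, h3⟩, h4⟩, h5⟩ := hg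
  constructor
  · rw [Lc.be_all h1 h2 (by omega) (by omega) (by omega) (by omega) (by omega)
      (by rcases htop with h | h; exact Or.inl h; exact Or.inr (by omega)) (okXs_mono h5 (by omega))]
    exact of_decide_eq_true h3
  · rw [Lc.be_all h1 h2 (by omega) (by omega) (by omega) (by omega) (by omega) htop h5]
    exact of_decide_eq_true h4

/-- second order coefficients of a component with three sites, energies `N - 1`, `N` -/
theorem Loc.be_goodB (Lc : Loc P r j t lo hi x C i base c0 R s los his) {N : ℕ}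
    (hg : goodB los his R s N = true) (hsR : s + 1 < R) (hN : N ≤ 2 * (R - 1 - s)) (hN' : N < 32)
    (htop : base = 0 ∨ N ≤ s) :
    I2.be (N - 1) 3 (ZS i C) = 0 ∧ I2.be N 3 (ZS i C) = 0 := by
  unfold goodB at hg
  simp only [Bool.and_eq_true] at hg
  obtain ⟨⟨⟨⟨h1, h2⟩, h3⟩, h4⟩, h5⟩ := hg
  constructor
  · rw [Lc.be_all h1 h2 (by omega) (by omega) (by omega) hsR (by omega)
      (by rcases htop with h | h; exact Or.inl h; exact Or.inr (by omega)) (okXs_mono h5 (by omega))]
    exact of_decide_eq_true h3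
  · rw [Lc.be_all h1 h2 (by omega) (by omega) hN' hsR hN htop h5]
    exact of_decide_eq_true h4

end Pool.Agent.GaussPoset.Win.Ev
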